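import Pool.Agent.Y874.TP.Stm

/-! Project TP, job THREE: the matching. -/

set_option autoImplicit false

namespace Pool.Agent.Y79.TP

open Pool.Agent.Y468.SR Pool.Agent.Y874.TP

/-- the crossings `x, y, z` are replaced by `x₂, y₂, z₂` -/
def sb (x y z x₂ y₂ z₂ c : ℕ) : ℕ :=
  if c = x then x₂ else if c = y then y₂ else if c = z then z₂ else c

/-- the new matching -/
def nm (x y z x₁ y₁ z₁ x₂ y₂ z₂ : ℕ) (m' : ℕ → ℕ) (c : ℕ) : ℕ :=
  if c = x then x₁ else if c = x₁ then x else if c = y then y₁ else if c = y₁ then y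
  else if c = z then z₁ else if c = z₁ then z
  else if c = x₂ then sb x y z x₂ y₂ z₂ (m' x) else if c = y₂ then sb x y z x₂ y₂ z₂ (m' y)
  else if c = z₂ then sb x y z x₂ y₂ z₂ (m' z) else sb x y z x₂ y₂ z₂ (m' c)

/-- a passage after the replacement -/
def sP (x y z x₂ y₂ z₂ : ℕ) (p : Pass) : Pass :=
  ⟨sb x y z x₂ y₂ z₂ p.crossing, p.isOver, p.isPos⟩

theorem match_new {P P' N : List Pass} {x y z x₁ x₂ y₁ y₂ z₁ z₂ : ℕ} {sx sy sz : Bool} {m' : ℕ → ℕ}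
    (hxy : x ≠ y) (hyz : y ≠ z) (hxz : x ≠ z)
    (hP : ∀ p, p ∈ P' ↔ p ∈ P)
    (h6 : ∀ p ∈ P, (p.crossing = x → p.isPos = sx) ∧ (p.crossing = y → p.isPos = sy) ∧
      (p.crossing = z → p.isPos = sz))
    (hx : ∀ e, (⟨x, e, sx⟩ : Pass) ∈ P) (hy : ∀ e, (⟨y, e, sy⟩ : Pass) ∈ P)
    (hz : ∀ e, (⟨z, e, sz⟩ : Pass) ∈ P)
    (hnd : [x₁, x₂, y₁, y₂, z₁, z₂].Nodup)
    (hnew : ∀ c ∈ [x₁, x₂, y₁, y₂, z₁, z₂], ∀ p ∈ P, p.crossing ≠ c)
    (cx1 : colour x₁ = colour x) (cx2 : colour x₂ = colour x) (cy1 : colour y₁ = colour y)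
    (cy2 : colour y₂ = colour y) (cz1 : colour z₁ = colour z) (cz2 : colour z₂ = colour z)
    (hm : Matching P' m') (hc : CM P' m')
    (hN : ∀ p, p ∈ N ↔ p ∈ P ∨ (p.crossing = x₁ ∧ p.isPos = !sx) ∨ (p.crossing = x₂ ∧ p.isPos = sx) ∨
      (p.crossing = y₁ ∧ p.isPos = !sy) ∨ (p.crossing = y₂ ∧ p.isPos = sy) ∨
      (p.crossing = z₁ ∧ p.isPos = !sz) ∨ (p.crossing = z₂ ∧ p.isPos = sz)) :
    Matching N (nm x y z x₁ y₁ z₁ x₂ y₂ z₂ m') ∧ CM N (nm x y z x₁ y₁ z₁ x₂ y₂ z₂ m') ∧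
    (∀ p ∈ P, nm x y z x₁ y₁ z₁ x₂ y₂ z₂ m' (sb x y z x₂ y₂ z₂ p.crossing) =
      sb x y z x₂ y₂ z₂ (m' p.crossing)) ∧
    (∀ p ∈ P, sP x y z x₂ y₂ z₂ p ∈ N) ∧
    (∀ p ∈ P, m' p.crossing ≠ p.crossing →
      nm x y z x₁ y₁ z₁ x₂ y₂ z₂ m' (sb x y z x₂ y₂ z₂ p.crossing) ≠
        sb x y z x₂ y₂ z₂ p.crossing) ∧
    nm x y z x₁ y₁ z₁ x₂ y₂ z₂ m' x = x₁ ∧ nm x y z x₁ y₁ z₁ x₂ y₂ z₂ m' y = y₁ ∧
    nm x y z x₁ y₁ z₁ x₂ y₂ z₂ m' z = z₁ := by
  have hxn : ∀ c ∈ [x₁, x₂, y₁, y₂, z₁, z₂], x ≠ c := fun c hc' => hnew c hc' _ (hx true)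
  have hyn : ∀ c ∈ [x₁, x₂, y₁, y₂, z₁, z₂], y ≠ c := fun c hc' => hnew c hc' _ (hy true)
  have hzn : ∀ c ∈ [x₁, x₂, y₁, y₂, z₁, z₂], z ≠ c := fun c hc' => hnew c hc' _ (hz true)
  have hx1 := hxn x₁ (by simp)
  have hx2 := hxn x₂ (by simp)
  have hx3 := hxn y₁ (by simp)
  have hx4 := hxn y₂ (by simp)
  have hx5 := hxn z₁ (by simp)
  have hx6 := hxn z₂ (by simp)
  have hy1 := hyn x₁ (by simp)
  have hy2 := hyn x₂ (by simp)
  have hy3 := hyn y₁ (by simp)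
  have hy4 := hyn y₂ (by simp)
  have hy5 := hyn z₁ (by simp)
  have hy6 := hyn z₂ (by simp)
  have hz1 := hzn x₁ (by simp)
  have hz2 := hzn x₂ (by simp)
  have hz3 := hzn y₁ (by simp)
  have hz4 := hzn y₂ (by simp)
  have hz5 := hzn z₁ (by simp)
  have hz6 := hzn z₂ (by simp)
  simp only [List.nodup_cons, List.mem_cons, List.not_mem_nil, or_false, not_or, not_false_eq_true,
    List.nodup_nil, and_true] at hnd
  obtain ⟨⟨n12, n13, n14, n15, n16⟩, ⟨n23, n24, n25, n26⟩, ⟨n34, n35, n36⟩, ⟨n45, n46⟩, n56⟩ := hnd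
  obtain ⟨s, hs⟩ : ∃ s, s = sb x y z x₂ y₂ z₂ := ⟨_, rfl⟩
  obtain ⟨m, hmm⟩ : ∃ m, m = nm x y z x₁ y₁ z₁ x₂ y₂ z₂ m' := ⟨_, rfl⟩
  have sx0 : s x = x₂ := by rw [hs]; simp [sb]
  have sy0 : s y = y₂ := by rw [hs]; simp [sb, hxy.symm]
  have sz0 : s z = z₂ := by rw [hs]; simp [sb, hxz.symm, hyz.symm]
  have s0 : ∀ c, c ≠ x → c ≠ y → c ≠ z → s c = c := by
    intro c h1 h2 h3
    rw [hs]
    simp [sb, h1, h2, h3]
  have mx : m x = x₁ := by rw [hmm]; simp [nm]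
  have mx1 : m x₁ = x := by rw [hmm]; simp [nm, hx1.symm]
  have my : m y = y₁ := by rw [hmm]; simp [nm, hxy.symm, hy1]
  have my1 : m y₁ = y := by rw [hmm]; simp [nm, hx3.symm, Ne.symm n13, hy3.symm]
  have mz : m z = z₁ := by rw [hmm]; simp [nm, hxz.symm, hz1, hyz.symm, hz3]
  have mz1 : m z₁ = z := by
    rw [hmm]
    simp [nm, hx5.symm, Ne.symm n15, hy5.symm, Ne.symm n35, hz5.symm]
  have mx2 : m x₂ = s (m' x) := by
    rw [hmm, hs]
    simp [nm, hx2.symm, Ne.symm n12, hy2.symm, n23, hz2.symm, n25]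
  have my2 : m y₂ = s (m' y) := by
    rw [hmm, hs]
    simp [nm, hx4.symm, Ne.symm n14, hy4.symm, Ne.symm n34, hz4.symm, n45, Ne.symm n24]
  have mz2 : m z₂ = s (m' z) := by
    rw [hmm, hs]
    simp [nm, hx6.symm, Ne.symm n16, hy6.symm, Ne.symm n36, hz6.symm, Ne.symm n56, Ne.symm n26,
      Ne.symm n46]
  have m0 : ∀ p ∈ P, p.crossing ≠ x → p.crossing ≠ y → p.crossing ≠ z →
      m p.crossing = s (m' p.crossing) := by
    intro p hp h1 h2 h3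
    have e1 := hnew x₁ (by simp) p hp
    have e2 := hnew x₂ (by simp) p hp
    have e3 := hnew y₁ (by simp) p hp
    have e4 := hnew y₂ (by simp) p hp
    have e5 := hnew z₁ (by simp) p hp
    have e6 := hnew z₂ (by simp) p hp
    rw [hmm, hs]
    simp [nm, h1, h2, h3, e1, e2, e3, e4, e5, e6]
  -- the relation between the matchings
  have hrel : ∀ p ∈ P, m (s p.crossing) = s (m' p.crossing) := by
    intro p hp
    by_cases h1 : p.crossing = x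
    · rw [h1, sx0, mx2]
    by_cases h2 : p.crossing = y
    · rw [h2, sy0, my2]
    by_cases h3 : p.crossing = z
    · rw [h3, sz0, mz2]
    rw [s0 _ h1 h2 h3]
    exact m0 p hp h1 h2 h3
  -- injectivity
  have hinj : ∀ p ∈ P, ∀ q ∈ P, s p.crossing = s q.crossing → p.crossing = q.crossing := by
    intro p hp q hq h
    have key : ∀ r ∈ P, (r.crossing = x ∧ s r.crossing = x₂) ∨ (r.crossing = y ∧ s r.crossing = y₂) ∨
        (r.crossing = z ∧ s r.crossing = z₂) ∨ s r.crossing = r.crossing := by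
      intro r _
      by_cases h1 : r.crossing = x
      · exact Or.inl ⟨h1, by rw [h1, sx0]⟩
      by_cases h2 : r.crossing = y
      · exact Or.inr (Or.inl ⟨h2, by rw [h2, sy0]⟩)
      by_cases h3 : r.crossing = z
      · exact Or.inr (Or.inr (Or.inl ⟨h3, by rw [h3, sz0]⟩))
      exact Or.inr (Or.inr (Or.inr (s0 _ h1 h2 h3)))
    have p2 := hnew x₂ (by simp) p hp
    have p4 := hnew y₂ (by simp) p hp
    have p6 := hnew z₂ (by simp) p hp
    have q2 := hnew x₂ (by simp) q hq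
    have q4 := hnew y₂ (by simp) q hq
    have q6 := hnew z₂ (by simp) q hq
    rcases key p hp with ⟨a1, a2⟩ | ⟨a1, a2⟩ | ⟨a1, a2⟩ | a2 <;>
      rcases key q hq with ⟨b1, b2⟩ | ⟨b1, b2⟩ | ⟨b1, b2⟩ | b2 <;>
      rw [a2, b2] at h <;> omega
  have hcol : ∀ c, colour (s c) = colour c := by
    intro c
    by_cases h1 : c = x
    · rw [h1, sx0, cx2]
    by_cases h2 : c = y
    · rw [h2, sy0, cy2]
    by_cases h3 : c = z
    · rw [h3, sz0, cz2]
    rw [s0 _ h1 h2 h3]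
  -- passages after the replacement
  have hsP : ∀ p ∈ P, (⟨s p.crossing, p.isOver, p.isPos⟩ : Pass) ∈ N := by
    intro p hp
    rw [hN]
    obtain ⟨g1, g2, g3⟩ := h6 p hp
    by_cases h1 : p.crossing = x
    · right; right; left
      exact ⟨by simp only; rw [h1, sx0], g1 h1⟩
    by_cases h2 : p.crossing = y
    · right; right; right; right; left
      exact ⟨by simp only; rw [h2, sy0], g2 h2⟩
    by_cases h3 : p.crossing = z
    · right; right; right; right; right; right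
      exact ⟨by simp only; rw [h3, sz0], g3 h3⟩
    left
    have : (⟨s p.crossing, p.isOver, p.isPos⟩ : Pass) = p := by rw [s0 _ h1 h2 h3]
    rw [this]
    exact hp
  have hPN : ∀ p ∈ P, p ∈ N := fun p hp => (hN p).2 (Or.inl hp)
  -- classification of the passages
  have hclass : ∀ p ∈ N, (∃ p0 ∈ P, p = ⟨s p0.crossing, p0.isOver, p0.isPos⟩) ∨
      (p.crossing = x ∧ p.isPos = sx) ∨ (p.crossing = y ∧ p.isPos = sy) ∨
      (p.crossing = z ∧ p.isPos = sz) ∨ (p.crossing = x₁ ∧ p.isPos = !sx) ∨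
      (p.crossing = y₁ ∧ p.isPos = !sy) ∨ (p.crossing = z₁ ∧ p.isPos = !sz) := by
    intro p hp
    rcases (hN p).1 hp with hp | hp | hp | hp | hp | hp | hp
    · obtain ⟨g1, g2, g3⟩ := h6 p hp
      by_cases h1 : p.crossing = x
      · exact Or.inr (Or.inl ⟨h1, g1 h1⟩)
      by_cases h2 : p.crossing = y
      · exact Or.inr (Or.inr (Or.inl ⟨h2, g2 h2⟩))
      by_cases h3 : p.crossing = z
      · exact Or.inr (Or.inr (Or.inr (Or.inl ⟨h3, g3 h3⟩)))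
      exact Or.inl ⟨p, hp, by rw [s0 _ h1 h2 h3]⟩
    · exact Or.inr (Or.inr (Or.inr (Or.inr (Or.inl hp))))
    · obtain ⟨c, e, σ⟩ := p
      simp only at hp
      obtain ⟨rfl, rfl⟩ := hp
      exact Or.inl ⟨_, hx e, by simp only; rw [sx0]⟩
    · exact Or.inr (Or.inr (Or.inr (Or.inr (Or.inr (Or.inl hp)))))
    · obtain ⟨c, e, σ⟩ := p
      simp only at hp
      obtain ⟨rfl, rfl⟩ := hp
      exact Or.inl ⟨_, hy e, by simp only; rw [sy0]⟩
    · exact Or.inr (Or.inr (Or.inr (Or.inr (Or.inr (Or.inr hp)))))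
    · obtain ⟨c, e, σ⟩ := p
      simp only at hp
      obtain ⟨rfl, rfl⟩ := hp
      exact Or.inl ⟨_, hz e, by simp only; rw [sz0]⟩
  have hmP : ∀ p ∈ P, ∃ q ∈ P, q.crossing = m' p.crossing ∧ m' q.crossing = p.crossing ∧
      (q.crossing ≠ p.crossing → q.isPos = !p.isPos) := by
    intro p hp
    obtain ⟨q, hq, h⟩ := hm p ((hP p).2 hp)
    exact ⟨q, (hP q).1 hq, h⟩
  have hne : ∀ p ∈ P, m' p.crossing ≠ p.crossing → m (s p.crossing) ≠ s p.crossing := by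
    intro p hp h
    obtain ⟨q, hq, h1, -, -⟩ := hmP p hp
    rw [hrel p hp, ← h1]
    intro h2
    apply h
    rw [← h1]
    exact hinj q hq p hp h2
  rw [← hmm, ← hs]
  refine ⟨?_, ?_, hrel, ?_, hne, mx, my, mz⟩
  · intro p hp
    rcases hclass p hp with ⟨p0, hp0, rfl⟩ | ⟨h1, h2⟩ | ⟨h1, h2⟩ | ⟨h1, h2⟩ | ⟨h1, h2⟩ | ⟨h1, h2⟩ |
      ⟨h1, h2⟩
    · obtain ⟨q, hq, h1, h2, h3⟩ := hmP p0 hp0
      refine ⟨⟨s q.crossing, q.isOver, q.isPos⟩, hsP q hq, ?_, ?_, ?_⟩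
      · simp only
        rw [hrel p0 hp0, h1]
      · simp only
        rw [hrel q hq, h2]
      · intro h4
        refine h3 fun h5 => h4 ?_
        simp only
        rw [h5]
    · refine ⟨⟨x₁, true, !sx⟩, (hN _).2 (by simp), ?_, ?_, ?_⟩
      · rw [h1, mx]
      · simp only; rw [mx1, h1]
      · intro _; simp only; rw [h2]
    · refine ⟨⟨y₁, true, !sy⟩, (hN _).2 (by simp), ?_, ?_, ?_⟩
      · rw [h1, my]
      · simp only; rw [my1, h1]
      · intro _; simp only; rw [h2]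
    · refine ⟨⟨z₁, true, !sz⟩, (hN _).2 (by simp), ?_, ?_, ?_⟩
      · rw [h1, mz]
      · simp only; rw [mz1, h1]
      · intro _; simp only; rw [h2]
    · refine ⟨⟨x, true, sx⟩, hPN _ (hx true), ?_, ?_, ?_⟩
      · rw [h1, mx1]
      · simp only; rw [mx, h1]
      · intro _; simp only; rw [h2, Bool.not_not]
    · refine ⟨⟨y, true, sy⟩, hPN _ (hy true), ?_, ?_, ?_⟩
      · rw [h1, my1]
      · simp only; rw [my, h1]
      · intro _; simp only; rw [h2, Bool.not_not]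
    · refine ⟨⟨z, true, sz⟩, hPN _ (hz true), ?_, ?_, ?_⟩
      · rw [h1, mz1]
      · simp only; rw [mz, h1]
      · intro _; simp only; rw [h2, Bool.not_not]
  · intro p hp
    rcases hclass p hp with ⟨p0, hp0, rfl⟩ | ⟨h1, h2⟩ | ⟨h1, h2⟩ | ⟨h1, h2⟩ | ⟨h1, h2⟩ | ⟨h1, h2⟩ |
      ⟨h1, h2⟩
    · obtain ⟨g1, g2⟩ := hc p0 ((hP p0).2 hp0)
      simp only
      rw [hrel p0 hp0, hcol, hcol]
      refine ⟨g1, fun h => ?_⟩
      have := hne p0 hp0 (g2 h)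
      rwa [hrel p0 hp0] at this
    · rw [h1, mx]
      exact ⟨cx1, fun _ => hx1.symm⟩
    · rw [h1, my]
      exact ⟨cy1, fun _ => hy3.symm⟩
    · rw [h1, mz]
      exact ⟨cz1, fun _ => hz5.symm⟩
    · rw [h1, mx1]
      exact ⟨cx1.symm, fun _ => hx1⟩
    · rw [h1, my1]
      exact ⟨cy1.symm, fun _ => hy3⟩
    · rw [h1, mz1]
      exact ⟨cz1.symm, fun _ => hz5⟩
  · intro p hp
    have : sP x y z x₂ y₂ z₂ p = ⟨s p.crossing, p.isOver, p.isPos⟩ := by rw [sP, hs]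
    rw [this]
    exact hsP p hp

end Pool.Agent.Y79.TP
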