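import Pool.Agent.Y468.SR.Words

/-! Words in group elements and labels: replacing a letter. -/

set_option autoImplicit false

namespace Pool.Agent.Y79.TP

open Pool.Agent.Y468.SR

section
variable {G : Type} [Group G]

/-- values of the components of a word in group elements and labels -/
def eg : List (G ⊕ ℕ) → G → List (G × ℕ)
  | [], _ => []
  | Sum.inl x :: l, g => eg l (g * x)
  | Sum.inr b :: l, g => (g, b) :: eg l 1

theorem ev_eq_eg (o u : ℕ → G) (l : List (Pass ⊕ ℕ)) (g : G) :
    ev o u l g = eg (l.map (Sum.map (val o u) id)) g := by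
  induction l generalizing g with
  | nil => rfl
  | cons a l ih =>
    rcases a with p | b
    · simp only [ev, List.map_cons, Sum.map_inl, eg, ih]
    · simp only [ev, List.map_cons, Sum.map_inr, eg, ih, id]

/-- the next label in a word -/
def nl {α : Type} : List (α ⊕ ℕ) → Option ℕ
  | [] => none
  | Sum.inl _ :: l => nl l
  | Sum.inr b :: _ => some b

theorem nl_map {α β : Type} (f : α → β) (l : List (α ⊕ ℕ)) :
    nl (l.map (Sum.map f id)) = nl l := by
  induction l with
  | nil => rfl
  | cons a l ih =>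
    rcases a with x | b
    · simpa [nl] using ih
    · simp [nl]

theorem eg_tail {E : List (G ⊕ ℕ)} {β : ℕ} (h : nl E = some β) :
    ∃ (e : G) (L : List (G × ℕ)), ∀ g, eg E g = (g * e, β) :: L := by
  induction E with
  | nil => exact absurd h (by simp [nl])
  | cons a E ih =>
    rcases a with x | b
    · obtain ⟨e, L, h1⟩ := ih (by simpa [nl] using h)
      exact ⟨x * e, L, fun g => by simp only [eg]; rw [h1, mul_assoc]⟩
    · have hb : b = β := by simpa [nl] using h
      subst hb
      exact ⟨1, eg E 1, fun g => by simp only [eg]; rw [mul_one]⟩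

theorem eg_head (A E : List (G ⊕ ℕ)) (g : G) :
    ∃ (c : G) (L : List (G × ℕ)), ∀ (h : G), eg (A ++ Sum.inl h :: E) g = L ++ eg E (c * h) := by
  induction A generalizing g with
  | nil => exact ⟨g, [], fun h => by simp [eg]⟩
  | cons a A ih =>
    rcases a with x | b
    · obtain ⟨c, L, h1⟩ := ih (g * x)
      exact ⟨c, L, fun h => by simp only [List.cons_append, eg]; exact h1 h⟩
    · obtain ⟨c, L, h1⟩ := ih 1
      exact ⟨c, (g, b) :: L, fun h => by simp only [List.cons_append, eg]; rw [h1]⟩

theorem cn_replace {x y c e : G} {l : List G} (h : CN (c * x * e :: l)) :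
    CN (x * y⁻¹ :: c * y * e :: l) := by
  have e1 : c * x * e = (c * (x * y⁻¹) * c⁻¹) * (c * y * e) := by group
  rw [e1] at h
  have h2 := h.cut.conj_head c⁻¹
  have e2 : c⁻¹ * (c * (x * y⁻¹) * c⁻¹) * c⁻¹⁻¹ = x * y⁻¹ := by group
  rwa [e2] at h2

/-- replacing one letter -/
theorem letter (A E : List (G ⊕ ℕ)) (x y : G) {β : ℕ} (hE : nl E = some β) (K : List G) (b : ℕ)
    (h : CN (bv (eg (A ++ Sum.inl x :: E) 1) b ++ K)) :
    CN (bv (eg (A ++ Sum.inl y :: E) 1) b ++ (bv [(x * y⁻¹, β)] b ++ K)) := by
  obtain ⟨c, L, h1⟩ := eg_head A E 1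
  obtain ⟨e, L', h2⟩ := eg_tail hE
  rw [h1, h2] at h ⊢
  have hbv : ∀ g : G, bv (L ++ (g, β) :: L') b =
      bv L b ++ (if β = b then g :: bv L' b else bv L' b) := by
    intro g
    unfold bv
    rw [List.filter_append, List.map_append, List.filter_cons]
    split_ifs <;> simp_all
  rw [hbv] at h
  rw [hbv, bv_cons, bv_nil]
  by_cases hb : β = b
  · rw [if_pos hb] at h
    rw [if_pos hb, if_pos hb]
    have p1 : (bv L b ++ (c * x * e) :: bv L' b ++ K).Perm
        (c * x * e :: (bv L b ++ bv L' b ++ K)) := by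
      simp only [List.append_assoc, List.cons_append]
      exact List.perm_middle
    have p2 : (x * y⁻¹ :: c * y * e :: (bv L b ++ bv L' b ++ K)).Perm
        (bv L b ++ (c * y * e) :: bv L' b ++ ([x * y⁻¹] ++ K)) := by
      refine (List.Perm.swap _ _ _).trans ?_
      simp only [List.append_assoc, List.cons_append, List.nil_append]
      refine List.Perm.trans ?_ List.perm_middle.symm
      refine List.Perm.cons _ ?_
      rw [← List.append_assoc, ← List.append_assoc]
      exact List.perm_middle.symm
    exact CN.perm p2 (cn_replace (CN.perm p1 h))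
  · rw [if_neg hb] at h
    rw [if_neg hb, if_neg hb]
    exact h

/-- two letters as one -/
theorem eg_two (A E : List (G ⊕ ℕ)) (x y g : G) :
    eg (A ++ ([Sum.inl x, Sum.inl y] ++ E)) g = eg (A ++ Sum.inl (x * y) :: E) g := by
  induction A generalizing g with
  | nil => simp [eg, mul_assoc]
  | cons a A ih =>
    rcases a with x | b
    · simpa [eg] using ih _
    · simpa [eg] using ih 1

/-- replacing a pair of letters -/
theorem pair (A E : List (G ⊕ ℕ)) (x x' y y' : G) {β : ℕ} (hE : nl E = some β) (K : List G) (b : ℕ)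
    (h : CN (bv (eg (A ++ ([Sum.inl x, Sum.inl x'] ++ E)) 1) b ++ K)) :
    CN (bv (eg (A ++ ([Sum.inl y, Sum.inl y'] ++ E)) 1) b ++
      (bv [(x * x' * (y * y')⁻¹, β)] b ++ K)) := by
  rw [eg_two] at h ⊢
  exact letter A E _ _ hE K b h

end

/-- permutations of the first components lift -/
theorem lift_perm {α β : Type} {l l' : List α} (h : l.Perm l') :
    ∀ k : List (α × β), k.map Prod.fst = l → ∃ k' : List (α × β), k.Perm k' ∧
      k'.map Prod.fst = l' := by
  induction h with
  | nil =>
    intro k hk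
    exact ⟨k, List.Perm.refl _, hk⟩
  | cons x _ ih =>
    intro k hk
    rcases k with _ | ⟨a, k⟩
    · exact absurd hk (by simp)
    · simp only [List.map_cons, List.cons.injEq] at hk
      obtain ⟨k', h1, h2⟩ := ih k hk.2
      exact ⟨a :: k', h1.cons a, by simp [hk.1, h2]⟩
  | swap x y l =>
    intro k hk
    rcases k with _ | ⟨a, k⟩
    · exact absurd hk (by simp)
    rcases k with _ | ⟨a', k⟩
    · exact absurd hk (by simp)
    · simp only [List.map_cons, List.cons.injEq] at hk
      exact ⟨a' :: a :: k, List.Perm.swap _ _ _, by simp [hk.1, hk.2.1, hk.2.2]⟩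
  | trans _ _ ih₁ ih₂ =>
    intro k hk
    obtain ⟨k', h1, h2⟩ := ih₁ k hk
    obtain ⟨k'', h3, h4⟩ := ih₂ k' h2
    exact ⟨k'', h1.trans h3, h4⟩

end Pool.Agent.Y79.TP
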